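import Pool.Agent.H55.Cos.Stmts

set_option warn.classDefReducibility false

namespace Pool.Agent.H55.Cos

open Set Filter Topology

open Classical in
theorem ch_eq (U : TopologicalSpace.Clopens XX) (i : Idx) :
    ch U i = fun z => if z ∈ U then phi i z else 0 := rfl

open Classical in
theorem continuous_ind' (W : Set XX) (f : XX → ℝ) (t : TopologicalSpace XX)
    (hU : @IsClopen XX t W) (hi : @Continuous XX ℝ t _ f) :
    @Continuous XX ℝ t _ (fun z => if z ∈ W then f z else 0) := by
  refine continuous_if ?_ ?_ ?_
  · intro a ha
    have h0 : frontier {z | z ∈ W} = ∅ := IsClopen.frontier_eq hU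
    rw [h0] at ha
    exact absurd ha (Set.notMem_empty a)
  · exact hi.continuousOn
  · exact continuous_const.continuousOn

/-- the coarse topology -/
def coarseT : TopologicalSpace XX := inferInstance

theorem clopen_mono {W : Set XX} (hW : IsClopen W) {t : TopologicalSpace XX} (ht : t ≤ coarseT) :
    @IsClopen XX t W :=
  ⟨@IsClosed.mono XX t coarseT W hW.1 ht, ht _ hW.2⟩

theorem continuous_ind (U : TopologicalSpace.Clopens XX) (i : Idx) :
    ∀ {t : TopologicalSpace XX}, t ≤ coarseT → @Continuous XX ℝ t _ (phi i) →
    @Continuous XX ℝ t _ (ch U i) := by
  have hW : IsClopen (U : Set XX) := U.isClopen'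
  have h : ∀ {t : TopologicalSpace XX}, t ≤ coarseT → @IsClopen XX t (U : Set XX) :=
    fun ht => clopen_mono hW ht
  revert h
  generalize hUU : (U : Set XX) = W
  intro h t ht hi
  have h2 := continuous_ind' W (phi i) t (h ht) hi
  subst hUU
  exact h2

theorem cos_dei (hG : GTGStmt) : DEIStmt := by
  classical
  intro I hI
  constructor
  · have h1 : TopologicalSpace.induced de (TT I)
        = ⨅ (U : TopologicalSpace.Clopens XX), ⨅ i ∈ I, TopologicalSpace.induced (ch U i) inferInstance := by
      unfold TT
      rw [induced_iInf]
      refine iInf_congr fun U => ?_
      rw [induced_iInf]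
      refine iInf_congr fun i => ?_
      rw [induced_iInf]
      refine iInf_congr fun _ => ?_
      rw [induced_compose]
      congr 1
      funext z
      exact hm_de U i z
    rw [h1]
    apply le_antisymm
    · refine le_iInf fun U => le_iInf₂ fun i hi => ?_
      rw [← continuous_iff_le_induced]
      have hle : tau I ≤ coarseT := inf_le_left
      refine continuous_ind U i hle ?_
      rw [continuous_iff_le_induced]
      exact inf_le_right.trans (iInf₂_le i hi)
    · unfold tau
      refine le_inf ?_ ?_
      · have hb := (isTopologicalBasis_isClopen (X := XX)).eq_generateFrom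
        rw [show (inferInstance : TopologicalSpace XX) = TopologicalSpace.generateFrom {s : Set XX | IsClopen s} from hb]
        refine le_generateFrom ?_
        intro s hs
        let U : TopologicalSpace.Clopens XX := ⟨s, hs⟩
        have hc : @Continuous XX ℝ (⨅ (U : TopologicalSpace.Clopens XX), ⨅ i ∈ I,
            TopologicalSpace.induced (ch U i) inferInstance) _ (ch U none) := by
          rw [continuous_iff_le_induced]
          exact (iInf_le _ U).trans (iInf₂_le none hI)
        have h3 : s = ch U none ⁻¹' (Set.Ioi (1 / 2 : ℝ)) := by
          ext z
          by_cases hz : z ∈ s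
          · have : z ∈ U := hz
            simp only [hz, true_iff, Set.mem_preimage, Set.mem_Ioi, ch, this, if_true, phi]
            norm_num
          · have : z ∉ U := hz
            simp only [hz, false_iff, Set.mem_preimage, Set.mem_Ioi, ch, this, if_false]
            norm_num
        rw [h3]
        exact @IsOpen.preimage XX ℝ (_) _ _ hc _ isOpen_Ioi
      · refine le_iInf₂ fun i hi => ?_
        have h4 : ch ⊤ i = phi i := by
          funext z
          have : z ∈ (⊤ : TopologicalSpace.Clopens XX) := trivial
          simp only [ch, this, if_true]
        refine (iInf_le _ (⊤ : TopologicalSpace.Clopens XX)).trans ?_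
        refine (iInf₂_le i hi).trans ?_
        rw [h4]
  · have hle : TT I ≤ TT {none} := by
      unfold TT
      refine iInf_mono fun U => ?_
      refine le_iInf₂ fun i hi => ?_
      rw [Set.mem_singleton_iff] at hi
      subst hi
      exact iInf₂_le none hI
    refine IsClosed.mono ?_ hle
    let t := TT {none}
    have ht : T2Space GG := hG.2 {none} rfl
    have hc : Continuous de := by
      have : (inferInstance : TopologicalSpace GG) = TT {none} := rfl
      rw [continuous_iff_le_induced]
      show (inferInstance : TopologicalSpace XX) ≤ TopologicalSpace.induced de (TT {none})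
      unfold TT
      rw [induced_iInf]
      refine le_iInf fun U => ?_
      rw [induced_iInf]
      refine le_iInf fun i => ?_
      rw [induced_iInf]
      refine le_iInf fun hi => ?_
      rw [Set.mem_singleton_iff] at hi
      subst hi
      rw [induced_compose]
      have h5 : (hm U none ∘ de) = ch U none := by
        funext z
        exact hm_de U none z
      rw [h5, ← continuous_iff_le_induced]
      exact continuous_ind U none le_rfl continuous_const
    exact (isCompact_range hc).isClosed

end Pool.Agent.H55.Cos
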