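import Pool.Agent.H55.Cos.Stmts

set_option warn.classDefReducibility false

namespace Pool.Agent.H55.Cos

open Set Filter Topology

theorem hm_apply (U : TopologicalSpace.Clopens XX) (i : Idx) (g : GG) :
    hm U i g = g.sum fun z k => (k : ℝ) * ch U i z := by
  unfold hm
  rw [Finsupp.liftAddHom_apply]
  rfl

theorem exists_clopen_sep (z : XX) (F : Finset XX) (hz : z ∉ F) :
    ∃ U : TopologicalSpace.Clopens XX, z ∈ U ∧ ∀ w ∈ F, w ∉ U := by
  have ho : IsOpen ((F : Set XX)ᶜ) := F.finite_toSet.isClosed.isOpen_compl
  obtain ⟨V, hV, hzV, hVF⟩ := compact_exists_isClopen_in_isOpen ho (x := z) (by simpa using hz)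
  refine ⟨⟨V, hV⟩, hzV, fun w hw hwV => ?_⟩
  exact hVF hwV (by simpa using hw)

theorem TT_le_induced {I : Set Idx} (U : TopologicalSpace.Clopens XX) {i : Idx} (hi : i ∈ I) :
    TT I ≤ TopologicalSpace.induced (hm U i) inferInstance := by
  unfold TT
  exact (iInf_le _ U).trans (iInf₂_le i hi)

theorem continuous_hm {I : Set Idx} (U : TopologicalSpace.Clopens XX) {i : Idx} (hi : i ∈ I) :
    @Continuous GG ℝ (TT I) _ (hm U i) :=
  continuous_iff_le_induced.mpr (TT_le_induced U hi)

theorem cos_gtg : GTGStmt := by
  refine ⟨fun I => ?_, fun I hI => ?_⟩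
  · unfold TT
    refine topologicalAddGroup_iInf fun U => ?_
    refine topologicalAddGroup_iInf fun i => ?_
    refine topologicalAddGroup_iInf fun _ => ?_
    exact topologicalAddGroup_induced (hm U i)
  · let _t := TT I
    refine ⟨fun g h hgh => ?_⟩
    have hd : g - h ≠ 0 := sub_ne_zero.mpr hgh
    obtain ⟨z, hz⟩ := Finsupp.support_nonempty_iff.mpr hd
    classical
    obtain ⟨U, hzU, hU⟩ := exists_clopen_sep z ((g - h).support.erase z) (by simp)
    have hne : hm U none g ≠ hm U none h := by
      intro he
      have h1 : hm U none (g - h) = 0 := by rw [map_sub, he, sub_self]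
      rw [hm_apply, Finsupp.sum, Finset.sum_eq_single z] at h1
      · simp only [ch, hzU, if_true, phi, mul_one] at h1
        rw [Finsupp.mem_support_iff] at hz
        exact hz (by exact_mod_cast h1)
      · intro w hw hwz
        have : w ∉ U := hU w (Finset.mem_erase.mpr ⟨hwz, hw⟩)
        simp [ch, this]
      · intro h2; exact absurd hz h2
    exact separated_by_continuous (continuous_hm U hI) hne

end Pool.Agent.H55.Cos
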